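import Pool.Agent.Y276.WM.Asm

/-!
Problem MP_9f60e7_an (wave maps into hyperbolic space), stronger negative answer.

Let `d ≥ 3` and let `H` be hyperbolic space of any dimension `n + 1 ≥ 2`. Smooth initial data whose
wave map `R^{d+1} → H` breaks down in finite time are dense in `H^s × H^{s-1}` for every integer
`s < d/2`, i.e. below the scaling critical regularity (for `d = 3`: in the energy space). The given
data have to be changed only in an arbitrarily small ball, and the breakdown happens at an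
arbitrarily small time, inside the backward light cone over the ball: there the solution exists up to
the vertex of the cone, and it leaves every compact subset of `H` at the vertex.

The definitions are in `Pool.Agent.Y276.WM.Un` (`Gam`, `wm`) and `Pool.Agent.Y276.WM.Asm`
(`cone`, `IsWaveMap`). Hyperbolic space is the upper half space `{y : y_n > 0}`, `n = Fin.last n`.
-/

set_option autoImplicit false

namespace Pool.Agent.Results.MP_9f60e7_an.DenseBlowUp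

open Filter Topology MeasureTheory
open Pool.Agent.Y276.WM

theorem result (d n : ℕ) (hd : 3 ≤ d) (hn : 1 ≤ n) (v0 v1 : (Fin d → ℝ) → (Fin (n + 1) → ℝ))
    (hv0 : ContDiff ℝ (⊤ : ℕ∞) v0) (hv1 : ContDiff ℝ (⊤ : ℕ∞) v1)
    (hpos : ∀ x, 0 < v0 x (Fin.last n)) (x0 : Fin d → ℝ) (δ : ℝ) (hδ : 0 < δ) :
    ∃ (u0 u1 : (Fin d → ℝ) → (Fin (n + 1) → ℝ)) (T : ℝ),
      ContDiff ℝ (⊤ : ℕ∞) u0 ∧ ContDiff ℝ (⊤ : ℕ∞) u1 ∧ (∀ x, 0 < u0 x (Fin.last n)) ∧
      (∀ x, δ ^ 2 ≤ ∑ i, (x i - x0 i) ^ 2 → u0 x = v0 x ∧ u1 x = v1 x) ∧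
      (∀ m : ℕ, 2 * m < d → ∫ x, ‖iteratedFDeriv ℝ m (fun x => u0 x - v0 x) x‖ ^ 2 < δ) ∧
      (∀ m : ℕ, 2 * (m + 1) < d →
        ∫ x, ‖iteratedFDeriv ℝ m (fun x => u1 x - v1 x) x‖ ^ 2 < δ) ∧
      0 < T ∧ T < δ ∧
      (∃ u, IsWaveMap (cone T x0 \ {Fin.cons T x0}) u0 u1 u) ∧
      (∀ u, IsWaveMap (cone T x0 \ {Fin.cons T x0}) u0 u1 u →
        Tendsto (fun t => u (Fin.cons t x0) (Fin.last n)) (𝓝[<] T) (𝓝 0)) ∧
      ∀ (Ω : Set (Fin (d + 1) → ℝ)) (u : (Fin (d + 1) → ℝ) → (Fin (n + 1) → ℝ)),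
        cone T x0 ⊆ Ω → ¬ IsWaveMap Ω u0 u1 u :=
  Pool.Agent.Y276.WM.main d n hd hn v0 v1 hv0 hv1 hpos x0 δ hδ

end Pool.Agent.Results.MP_9f60e7_an.DenseBlowUp
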